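import Pool.Agent.L5helper98.CQ.Stmts

/-! Project CQ (MP_b09bc5_pr): `TaskLowDet` with the additional hypothesis `1 ≤ n` (for `n = 0`,
`t ≥ 1` the statement `TaskLowDet` is false, since there is no map `Fin t → Fin 0`). -/

set_option autoImplicit false

namespace Pool.Agent.L5helper37.CQ

open Finset Pool.Agent.L5helper98.CQ
open scoped Classical

/-- `TaskLowDet` with the additional hypothesis `1 ≤ n` -/
def TaskLowDet1 : Prop :=
  ∀ (n r s0 t : ℕ) (ω : Om n), 1 ≤ n → 2 ≤ r → 1 ≤ s0 →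
    (∀ R : Finset (Fin n), R.card = r → 2 * (cn ω R).card < s0) →
    (∀ S : Finset (Fin n), s0 ≤ S.card → S.card ≤ r * s0 →
      (∀ v, v ∉ S → S.card ≤ 2 * r ^ 2 * (S \ nb ω v S).card) →
      ∃ K ⊆ S, K.card = r ∧ cl ω K ∧ ∀ w, w ∉ S → ∃ u ∈ K, ¬ adj ω w u) →
    (∀ v : Fin t → Fin n, t * s0 < (univ.filter (fun u => ∀ i, ¬ adj ω (v i) u)).card) →
    ¬ colorable ω t

/-- the non-neighbours of `v` in `S`, monotone in `S` -/
lemma sdiff_nb_mono {n : ℕ} (ω : Om n) (v : Fin n) {S T : Finset (Fin n)} (h : S ⊆ T) :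
    S \ nb ω v S ⊆ T \ nb ω v T := by
  intro u hu
  rw [mem_sdiff, nb, mem_filter] at hu
  rw [mem_sdiff, nb, mem_filter]
  exact ⟨h hu.1, fun h' => hu.2 ⟨hu.1, h'.2⟩⟩

/-- the greedy step -/
lemma greedy {n r s0 : ℕ} (ω : Om n) (S : Finset (Fin n)) (hr : 1 ≤ r)
    (hS : ∀ v, s0 ≤ (S \ nb ω v S).card) (hne : s0 ≤ S.card)
    (hstop : ∀ S' ⊆ S, s0 ≤ S'.card → S'.card ≤ r * s0 →
      ∃ v, 2 * r * (S' \ nb ω v S').card < s0) :
    ∀ j : ℕ, j ≤ r → ∃ S0 S' R : Finset (Fin n), S0 ⊆ S' ∧ S' ⊆ S ∧ S0.card = s0 ∧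
      S'.card ≤ (j + 1) * s0 ∧ R.card = j ∧ (∀ v ∈ R, s0 ≤ (S' \ nb ω v S').card) ∧
      ∀ v ∈ R, 2 * r * (S0 \ nb ω v S0).card < s0 := by
  intro j
  induction j with
  | zero =>
    intro _
    obtain ⟨S0, h0, h1⟩ := exists_subset_card_eq hne
    exact ⟨S0, S0, ∅, subset_rfl, h0, h1, by omega, card_empty, fun v hv => absurd hv (notMem_empty v),
      fun v hv => absurd hv (notMem_empty v)⟩
  | succ j ih =>
    intro hj
    obtain ⟨S0, S', R, h1, h2, h3, h4, h5, h6, h7⟩ := ih (by omega)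
    have hle : s0 ≤ S'.card := by
      rw [← h3]
      exact card_le_card h1
    obtain ⟨v, hv⟩ := hstop S' h2 hle (h4.trans (Nat.mul_le_mul_right _ hj))
    obtain ⟨A, hA, hAc⟩ := exists_subset_card_eq (hS v)
    have hAS : A ⊆ S := hA.trans sdiff_subset
    have hvR : v ∉ R := by
      intro h
      have h8 := h6 v h
      have h9 : 1 * (S' \ nb ω v S').card ≤ 2 * r * (S' \ nb ω v S').card :=
        Nat.mul_le_mul_right _ (by omega)
      omega
    refine ⟨S0, S' ∪ A, insert v R, h1.trans subset_union_left, union_subset h2 hAS, h3, ?_, ?_,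
      ?_, ?_⟩
    · refine (card_union_le _ _).trans ?_
      rw [hAc]
      have : (j + 1 + 1) * s0 = (j + 1) * s0 + s0 := by ring
      omega
    · rw [card_insert_of_notMem hvR, h5]
    · intro u hu
      rcases mem_insert.1 hu with rfl | hu
      · rw [← hAc]
        refine card_le_card fun x hx => ?_
        have h10 := hA hx
        rw [mem_sdiff, nb, mem_filter] at h10
        rw [mem_sdiff, nb, mem_filter]
        exact ⟨mem_union_right _ hx, fun h' => h10.2 ⟨h10.1, h'.2⟩⟩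
      · exact (h6 u hu).trans (card_le_card (sdiff_nb_mono ω u subset_union_left))
    · intro u hu
      rcases mem_insert.1 hu with rfl | hu
      · exact lt_of_le_of_lt (Nat.mul_le_mul_left _ (card_le_card (sdiff_nb_mono ω u h1))) hv
      · exact h7 u hu

/-- a set with many non-neighbours of every vertex contains a maximal clique of the graph -/
lemma key {n r s0 : ℕ} (ω : Om n) (hr : 2 ≤ r) (hs : 1 ≤ s0)
    (ha : ∀ R : Finset (Fin n), R.card = r → 2 * (cn ω R).card < s0)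
    (hb : ∀ S : Finset (Fin n), s0 ≤ S.card → S.card ≤ r * s0 →
      (∀ v, v ∉ S → S.card ≤ 2 * r ^ 2 * (S \ nb ω v S).card) →
      ∃ K ⊆ S, K.card = r ∧ cl ω K ∧ ∀ w, w ∉ S → ∃ u ∈ K, ¬ adj ω w u)
    (S : Finset (Fin n)) (hS : ∀ v, s0 ≤ (S \ nb ω v S).card) (hne : s0 ≤ S.card) :
    ∃ K ⊆ S, 2 ≤ K.card ∧ cl ω K ∧ ∀ w, w ∉ K → ∃ u ∈ K, ¬ adj ω w u := by
  -- the set `S'`
  have hex : ∃ S' ⊆ S, s0 ≤ S'.card ∧ S'.card ≤ r * s0 ∧ ∀ v, s0 ≤ 2 * r * (S' \ nb ω v S').card := by
    by_contra hcon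
    push Not at hcon
    obtain ⟨S0, S', R, h1, h2, h3, h4, h5, h6, h7⟩ := greedy (r := r) ω S (by omega) hS hne
      hcon r le_rfl
    have h8 := ha R h5
    have h9 : S0 ⊆ cn ω R ∪ R.biUnion (fun v => S0 \ nb ω v S0) := by
      intro u hu
      by_cases hc : u ∈ cn ω R
      · exact mem_union_left _ hc
      · refine mem_union_right _ ?_
        unfold cn at hc
        rw [mem_filter] at hc
        push Not at hc
        obtain ⟨v, hv, hadj⟩ := hc (mem_univ u)
        refine mem_biUnion.2 ⟨v, hv, ?_⟩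
        rw [mem_sdiff, nb, mem_filter]
        exact ⟨hu, fun h => hadj h.2⟩
    have h10 : s0 ≤ (cn ω R).card + ∑ v ∈ R, (S0 \ nb ω v S0).card := by
      rw [← h3]
      exact (card_le_card h9).trans ((card_union_le _ _).trans
        (Nat.add_le_add_left card_biUnion_le _))
    have h11 : 2 * r * ∑ v ∈ R, (S0 \ nb ω v S0).card ≤ r * s0 := by
      rw [mul_sum]
      refine (sum_le_sum fun v hv => (h7 v hv).le).trans ?_
      rw [sum_const, h5, smul_eq_mul]
    have h12 : 2 * ∑ v ∈ R, (S0 \ nb ω v S0).card ≤ s0 := by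
      have h13 : r * (2 * ∑ v ∈ R, (S0 \ nb ω v S0).card) ≤ r * s0 := by
        refine le_trans (le_of_eq ?_) h11
        ring
      exact Nat.le_of_mul_le_mul_left h13 (by omega)
    omega
  obtain ⟨S', hS'S, g1, g2, g3⟩ := hex
  obtain ⟨K, hKS', hKr, hKcl, hK⟩ := hb S' g1 g2 (fun v _ => by
    have h1 := Nat.mul_le_mul_left r (g3 v)
    refine g2.trans (h1.trans (le_of_eq ?_))
    ring)
  -- a maximal clique inside `S` containing `K`
  obtain ⟨K', hK'mem, hK'max⟩ := exists_max_image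
    (S.powerset.filter (fun L => K ⊆ L ∧ cl ω L)) card
    ⟨K, mem_filter.2 ⟨mem_powerset.2 (hKS'.trans hS'S), subset_rfl, hKcl⟩⟩
  rw [mem_filter, mem_powerset] at hK'mem
  obtain ⟨hK'S, hKK', hK'cl⟩ := hK'mem
  refine ⟨K', hK'S, ?_, hK'cl, ?_⟩
  · have := card_le_card hKK'
    omega
  · intro w hw
    by_cases hwS : w ∈ S
    · by_contra hcon
      push Not at hcon
      have h1 := hK'max (insert w K') (mem_filter.2 ⟨mem_powerset.2 (insert_subset hwS hK'S),
        hKK'.trans (subset_insert _ _), by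
          intro a ha' b hb' hab
          rcases mem_insert.1 ha' with ea | ha'
          · rcases mem_insert.1 hb' with eb | hb'
            · exact absurd (ea.trans eb.symm) hab
            · rw [ea]
              exact (hcon b hb').2
          · rcases mem_insert.1 hb' with eb | hb'
            · rw [eb, Sym2.eq_swap]
              exact (hcon a ha').2
            · exact hK'cl a ha' b hb' hab⟩)
      rw [card_insert_of_notMem hw] at h1
      omega
    · obtain ⟨u, hu, hnu⟩ := hK w (fun h => hwS (hS'S h))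
      exact ⟨u, hKK' hu, hnu⟩

theorem taskLowDet1 : TaskLowDet1 := by
  intro n r s0 t ω hn hr hs ha hb hv hcol
  obtain ⟨c, hc1, hc2⟩ := hcol
  have hcl : ∀ i : Fin t, ∃ v : Fin n,
      ((univ.filter (fun u => c u = i)) \ nb ω v (univ.filter (fun u => c u = i))).card < s0 := by
    intro i
    by_contra hcon
    push Not at hcon
    have hne : s0 ≤ (univ.filter (fun u : Fin n => c u = i)).card :=
      (hcon ⟨0, by omega⟩).trans (card_le_card sdiff_subset)
    obtain ⟨K, hKS, hK2, hKcl, hK⟩ := key ω hr hs ha hb _ hcon hne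
    obtain ⟨u, hu, w, hw, huw⟩ := hc2 K hKcl hK2 hK
    exact huw ((mem_filter.1 (hKS hu)).2.trans (mem_filter.1 (hKS hw)).2.symm)
  choose v hv' using hcl
  have h1 := hv v
  have h2 : (univ.filter (fun u => ∀ i, ¬ adj ω (v i) u)) ⊆
      univ.biUnion (fun i : Fin t => (univ.filter (fun u => c u = i)) \
        nb ω (v i) (univ.filter (fun u => c u = i))) := by
    intro u hu
    rw [mem_filter] at hu
    refine mem_biUnion.2 ⟨⟨c u, hc1 u⟩, mem_univ _, ?_⟩
    rw [mem_sdiff, nb, mem_filter, mem_filter]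
    exact ⟨⟨mem_univ _, rfl⟩, fun h => hu.2 _ h.2⟩
  have h3 := (card_le_card h2).trans (card_biUnion_le.trans (sum_le_sum fun i _ => (hv' i).le))
  rw [sum_const, card_univ, Fintype.card_fin, smul_eq_mul] at h3
  omega

end Pool.Agent.L5helper37.CQ
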