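import Pool.Agent.L5helper98.CQ.Stmts

/-! Project CQ (MP_b09bc5_pr): `TaskUpDet`. -/

set_option autoImplicit false

namespace Pool.Agent.L5helper37.CQ

open Finset Pool.Agent.L5helper98.CQ
open scoped Classical

/-- an injective numbering of a finite set -/
theorem exists_idx {n : ℕ} (T : Finset (Fin n)) :
    ∃ f : Fin n → ℕ, (∀ v ∈ T, f v < T.card) ∧ ∀ u ∈ T, ∀ v ∈ T, f u = f v → u = v := by
  refine ⟨fun v => if h : v ∈ T then (T.equivFin ⟨v, h⟩ : ℕ) else 0, ?_, ?_⟩
  · intro v hv
    simp only [hv, dif_pos]
    exact (T.equivFin ⟨v, hv⟩).2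
  · intro u hu v hv h
    simp only [hu, hv, dif_pos] at h
    have h1 := T.equivFin.injective (Fin.ext h)
    exact congrArg Subtype.val h1

theorem taskUpDet : TaskUpDet := by
  intro n r q ω T c hr hrn H1 H2 H3
  obtain ⟨f, hf1, hf2⟩ := exists_idx T
  obtain ⟨g, hg1, hg2⟩ := exists_idx (away ω T ∩ T)
  have hch : ∀ u : Fin n, ∃ v : Fin n, u ∉ away ω T → v ∈ T ∧ adj ω v u := by
    intro u
    by_cases hu : u ∈ away ω T
    · exact ⟨u, fun h => absurd hu h⟩
    · unfold away at hu
      rw [mem_filter] at hu
      push Not at hu
      obtain ⟨v, hv, h⟩ := hu (mem_univ u)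
      exact ⟨v, fun _ => ⟨hv, h⟩⟩
  choose s hs using hch
  refine ⟨fun u => if u ∈ away ω T then (if u ∈ T then T.card + g u
    else T.card + (away ω T ∩ T).card + c u) else f (s u), ?_, ?_⟩
  · intro v
    by_cases h1 : v ∈ away ω T
    · by_cases h2 : v ∈ T
      · simp only [h1, h2, if_true]
        have := hg1 v (mem_inter.2 ⟨h1, h2⟩)
        omega
      · simp only [h1, h2, if_true, if_false]
        have := H2 v (mem_sdiff.2 ⟨h1, h2⟩)
        omega
    · simp only [h1, if_false]
      have := hf1 _ (hs v h1).1
      omega
  · intro K hK hK2 hmax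
    by_contra hcon
    push Not at hcon
    obtain ⟨u0, hu0⟩ : K.Nonempty := card_pos.1 (by omega)
    by_cases h1 : u0 ∈ away ω T
    · by_cases h2 : u0 ∈ T
      · -- private colours
        have hall : ∀ v ∈ K, v = u0 := by
          intro v hv
          have h := hcon u0 hu0 v hv
          have hg0 := hg1 u0 (mem_inter.2 ⟨h1, h2⟩)
          simp only [h1, h2, if_true] at h
          by_cases h3 : v ∈ away ω T
          · by_cases h4 : v ∈ T
            · simp only [h3, h4, if_true] at h
              exact (hg2 u0 (mem_inter.2 ⟨h1, h2⟩) v (mem_inter.2 ⟨h3, h4⟩) (by omega)).symm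
            · simp only [h3, h4, if_true, if_false] at h
              omega
          · simp only [h3, if_false] at h
            have := hf1 _ (hs v h3).1
            omega
        have : K ⊆ {u0} := fun v hv => mem_singleton.2 (hall v hv)
        have := card_le_card this
        rw [card_singleton] at this
        omega
      · -- third type
        have hall : ∀ v ∈ K, v ∈ away ω T \ T ∧ c v = c u0 := by
          intro v hv
          have h := hcon u0 hu0 v hv
          simp only [h1, h2, if_true, if_false] at h
          by_cases h3 : v ∈ away ω T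
          · by_cases h4 : v ∈ T
            · simp only [h3, h4, if_true] at h
              have := hg1 v (mem_inter.2 ⟨h3, h4⟩)
              omega
            · simp only [h3, h4, if_true, if_false] at h
              exact ⟨mem_sdiff.2 ⟨h3, h4⟩, by omega⟩
          · simp only [h3, if_false] at h
            have := hf1 _ (hs v h3).1
            omega
        have hsub : K ⊆ away ω T \ T := fun v hv => (hall v hv).1
        rcases lt_trichotomy K.card r with hlt | heq | hgt
        · obtain ⟨K', hKK', -, hK'⟩ := exists_subsuperset_card_eq (s := K) (t := univ) (n := r - 1)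
            (subset_univ K) (by omega) (by rw [card_univ, Fintype.card_fin]; omega)
          obtain ⟨w, hw, hadj⟩ := H1 K' hK'
          obtain ⟨u, hu, hnu⟩ := hmax w (fun h => hw (hKK' h))
          exact hnu (hadj u (hKK' hu))
        · have hmem : K ∈ hyp ω r (away ω T \ T) (univ \ (away ω T ∪ T)) := by
            unfold hyp
            rw [mem_filter, mem_powersetCard]
            refine ⟨⟨hsub, heq⟩, hK, fun w hw => hmax w fun hwK => ?_⟩
            have h3 := (mem_sdiff.1 (hsub hwK)).1
            exact (mem_sdiff.1 hw).2 (mem_union_left _ h3)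
          obtain ⟨u, hu, v, hv, huv⟩ := H3 K (mem_union_left _ hmem)
          exact huv ((hall u hu).2.trans (hall v hv).2.symm)
        · obtain ⟨K', hK'K, hK'⟩ := exists_subset_card_eq (s := K) (n := r + 1) (by omega)
          have hmem : K' ∈ hyp ω (r + 1) (away ω T \ T) ∅ := by
            unfold hyp
            rw [mem_filter, mem_powersetCard]
            refine ⟨⟨hK'K.trans hsub, hK'⟩, fun u hu v hv huv => hK u (hK'K hu) v (hK'K hv) huv,
              fun w hw => absurd hw (notMem_empty w)⟩
          obtain ⟨u, hu, v, hv, huv⟩ := H3 K' (mem_union_right _ hmem)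
          exact huv ((hall u (hK'K hu)).2.trans (hall v (hK'K hv)).2.symm)
    · -- first type
      have hall : ∀ v ∈ K, adj ω (s u0) v := by
        intro v hv
        have h := hcon u0 hu0 v hv
        simp only [h1, if_false] at h
        have hf0 := hf1 _ (hs u0 h1).1
        by_cases h3 : v ∈ away ω T
        · by_cases h4 : v ∈ T
          · simp only [h3, h4, if_true] at h
            omega
          · simp only [h3, h4, if_true, if_false] at h
            omega
        · simp only [h3, if_false] at h
          have h5 := hf2 _ (hs u0 h1).1 _ (hs v h3).1 h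
          rw [h5]
          exact (hs v h3).2
      have hnot : s u0 ∉ K := fun h => (hall _ h).1 rfl
      obtain ⟨u, hu, hnu⟩ := hmax _ hnot
      exact hnu (hall u hu)

end Pool.Agent.L5helper37.CQ
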